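import Pool.Agent.H.MP_c5e1a2_co.A

set_option autoImplicit false

namespace Pool.Agent.Results.MP_c5e1a2_co.Groebner
open Pool.Agent.H.MP_c5e1a2_co MvPolynomial

/-- The toric ideal `I_A`. -/
noncomputable def toric (k : Type) [Field k] (S T : ℕ) : Ideal (MvPolynomial (Word S T) k) :=
  RingHom.ker (aeval (R := k) fun w : Word S T =>
    ∏ p : {p : Fin S × Fin S // p.1 ≠ p.2},
      (X p : MvPolynomial {p : Fin S × Fin S // p.1 ≠ p.2} k) ^ cnt w p.1.1 p.1.2)

/-- `G` is a Groebner basis of `I` for the monomial order `m`. -/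
def IsGB {σ k : Type} [Field k] (m : MonomialOrder σ) (I : Ideal (MvPolynomial σ k))
    (G : Set (MvPolynomial σ k)) : Prop :=
  (∀ g ∈ G, g ∈ I) ∧ ∀ f ∈ I, f ≠ 0 → ∃ g ∈ G, g ≠ 0 ∧ m.degree g ≤ m.degree f

noncomputable def A (s : Word 6 4 →₀ ℕ) : {p : Fin 6 × Fin 6 // p.1 ≠ p.2} →₀ ℕ :=
  Finsupp.equivFunOnFinite.symm fun p => ∑ w, cnt w p.1.1 p.1.2 * s w

theorem mon {k : Type} [Field k] (s : Word 6 4 →₀ ℕ) (c : k) : aeval (R := k) (fun w : Word 6 4 =>
    ∏ p : {p : Fin 6 × Fin 6 // p.1 ≠ p.2},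
      (X p : MvPolynomial {p : Fin 6 × Fin 6 // p.1 ≠ p.2} k) ^ cnt w p.1.1 p.1.2) (monomial s c) =
      monomial (A s) c := by
  rw [aeval_monomial, monomial_eq, Finsupp.prod_fintype _ _ (by simp), Finsupp.prod_fintype _ _ (by simp)]
  simp only [← Finset.prod_pow, ← pow_mul, algebraMap_eq]
  rw [Finset.prod_comm]
  simp only [Finset.prod_pow_eq_pow_sum, A, Finsupp.coe_equivFunOnFinite_symm]

theorem result : ∃ S T : ℕ, 3 ≤ S ∧ 4 ≤ T ∧ ∀ (k : Type) [Field k] (m : MonomialOrder (Word S T))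
    (G : Set (MvPolynomial (Word S T) k)), IsGB m (toric k S T) G → ∃ g ∈ G, S + 1 ≤ g.totalDegree := by
  classical
  refine ⟨6, 4, by norm_num, le_rfl, fun k _ m G ⟨h1, h2⟩ => ?_⟩
  set U := Finsupp.equivFunOnFinite.symm u
  set V := Finsupp.equivFunOnFinite.symm v
  have ne : U ≠ V := Finsupp.equivFunOnFinite.symm.injective.ne une
  have f0 : (monomial U 1 - monomial V 1 : MvPolynomial _ k) ≠ 0 :=
    sub_ne_zero.mpr ((monomial_left_injective one_ne_zero).ne ne)
  obtain ⟨g, hg, g0, hd⟩ := h2 _ (by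
    rw [toric, RingHom.mem_ker, map_sub, mon, mon, sub_eq_zero]
    refine congrArg (monomial · 1) (Finsupp.ext fun p => ?_)
    simp only [A, U, V, Finsupp.coe_equivFunOnFinite_symm, uv]) f0
  refine ⟨g, hg, ?_⟩
  have hs : ∀ w ∉ Set.range L, m.degree g w = 0 := fun w hw => by
    have := support_sub _ _ _ (m.degree_mem_support f0)
    simp only [support_monomial, one_ne_zero, if_false, Finset.mem_union, Finset.mem_singleton] at this
    refine Nat.eq_zero_of_le_zero ((hd w).trans_eq ?_)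
    rcases this with e | e <;> rw [e]
    exacts [(u0 w hw).1, (u0 w hw).2]
  have : ∃ s ∈ g.support, s ≠ m.degree g ∧ A s = A (m.degree g) := by
    by_contra hc
    push Not at hc
    have := congrArg (coeff (A (m.degree g))) (RingHom.mem_ker.mp (h1 g hg))
    rw [g.as_sum, map_sum, coeff_sum, ← g.as_sum, Finset.sum_eq_single (m.degree g)
      (fun s hs e => by rw [mon, coeff_monomial, if_neg (hc s hs e)])
      (fun h => absurd (m.degree_mem_support g0) h), mon, coeff_monomial, if_pos rfl] at this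
    exact mem_support_iff.mp (m.degree_mem_support g0) this
  obtain ⟨s, -, s1, s2⟩ := this
  have := (key hs (y := s) (fun i j ij => by
    simpa only [A, Finsupp.coe_equivFunOnFinite_symm] using (DFunLike.congr_fun s2 ⟨(i, j), ij⟩).symm)
    (DFunLike.coe_injective.ne s1.symm)).1
  refine le_trans ?_ (le_totalDegree (m.degree_mem_support g0))
  rw [Finsupp.sum_fintype _ _ (by simp)]
  exact le_trans (by norm_num) (this.trans (Finset.sum_le_sum fun w _ => Nat.sub_le _ _))

end Pool.Agent.Results.MP_c5e1a2_co.Groebner
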