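import Pool.Agent.H.MP_c5e1a2_co.A

set_option autoImplicit false

namespace Pool.Agent.Results.MP_c5e1a2_co.Markov
open Pool.Agent.H.MP_c5e1a2_co

/-- `Z` is a Markov basis (moves may be used with either sign). -/
def IsMarkovBasis {S T : ℕ} (Z : Finset (Word S T → ℤ)) : Prop :=
  (∀ z ∈ Z, ∀ i j, i ≠ j → ∑ w, (cnt w i j : ℤ) * z w = 0) ∧
  ∀ x y : Word S T → ℕ, (∀ i j, i ≠ j → ∑ w, cnt w i j * x w = ∑ w, cnt w i j * y w) →
    Relation.ReflTransGen (fun a b : Word S T → ℕ =>
      ∃ z ∈ Z, (∀ w, (b w : ℤ) = a w + z w) ∨ ∀ w, (b w : ℤ) = a w - z w) x y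

theorem result : ∃ S T : ℕ, 3 ≤ S ∧ 4 ≤ T ∧ ∀ Z : Finset (Word S T → ℤ), IsMarkovBasis Z →
    ∃ z ∈ Z, S ≤ ∑ w, (z w).toNat := by
  refine ⟨6, 4, by norm_num, le_rfl, fun Z ⟨h1, h2⟩ => by_contra fun h => une ?_⟩
  push Not at h
  have := h2 u v fun i j _ => uv i j
  generalize v = y at this
  induction this with
  | refl => rfl
  | tail _ s ih =>
    rename_i b c _
    subst ih
    by_contra hne
    obtain ⟨z, hz, s⟩ := s
    have k := key (fun w h => (u0 w h).1) (y := c) (fun i j ij => by
      have := h1 z hz i j ij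
      zify
      rcases s with s | s <;>
        simp only [s, mul_add, mul_sub, Finset.sum_add_distrib, Finset.sum_sub_distrib, this, add_zero,
          sub_zero]) hne
    have := h z hz
    rcases s with s | s
    · have := k.2.trans_eq (Finset.sum_congr rfl fun w _ => show _ = (z w).toNat by have := s w; omega)
      omega
    · have := k.1.trans_eq (Finset.sum_congr rfl fun w _ => show _ = (z w).toNat by have := s w; omega)
      omega

end Pool.Agent.Results.MP_c5e1a2_co.Markov
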